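import Pool.Agent.Work.MP_db9399_iv.TSplit
import Pool.Agent.Work.MP_db9399_xf_helper62.BX2
import Pool.Agent.Work.MP_db9399_da_helper99.PARTV

/-!
# MP_db9399, all scales: the labels from test sets (helper62)

`Stmt_LPL`: a family `I` of local test sets; labels which split the test sets in the right proportion
and have the exact counts satisfy `PcL`.
-/

set_option autoImplicit false

namespace Pool.Agent.Work.MP_db9399_lpl

open Finset Classical
open Pool.Agent.Work.MP_db9399_all (nb)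
open Pool.Agent.Work.MP_db9399_da
open Pool.Agent.Work.MP_db9399_xf
open Pool.Agent.Work.MP_db9399_iv (SameX)
open Pool.Agent.Work.MP_db9399_da.helper99.PA
open Pool.Agent.Work.MP_db9399_da.helper62 (nb_split card_nb_bk)

universe u

section defs
variable {V : Type u} {N J : ℕ} [Fintype V]

/-- The labels of `X` split the test sets `A ∈ I` in the right proportion; exact numbers; balance of
the thin degrees up to `Cm ζ d`. -/
structure LabT (Cm : ℝ) (I : Finset (Finset V)) (S : Fin J → Scl) (G : SimpleGraph V) (d : ℕ)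
    (X : XD V N J) : Prop where
  tN : ∀ A ∈ I, ∀ n, X.P.ty n = Ty.N → A ⊆ pV X.P n → ∀ β i,
    |((A.filter (fun v => X.P.sd v = β ∧ X.P.pt v = i)).card : ℝ) - A.card / 4| ≤
      (d : ℝ) ^ (9 / 10 : ℝ)
  tB : ∀ A ∈ I, ∀ n, X.P.ty n = Ty.B → A ⊆ pV X.P n → ∀ i,
    |((A.filter (fun v => X.P.pt v = i)).card : ℝ) - A.card / 2| ≤ (d : ℝ) ^ (9 / 10 : ℝ)
  tK : ∀ A ∈ I, ∀ n, X.P.ty n = Ty.K → A ⊆ pV X.P n → ∀ i β,
    |((A.filter (fun v => X.P.th v = i ∧ X.P.sd v = β)).card : ℝ) - A.card / 6| ≤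
      (d : ℝ) ^ (9 / 10 : ℝ)
  cN : ∀ n, X.P.ty n = Ty.N → ∀ β i, 4 * (qV X n β i).card = (pV X.P n).card
  cB : ∀ n, X.P.ty n = Ty.B → ∀ i, (qV X n false i).card = (qV X n true i).card
  cS : ∀ n, X.P.ty n = Ty.B → ∀ i, (qV X n false i).card ≤ (qV X n false (!i)).card + 1
  thq : ∀ n, X.P.ty n = Ty.N ∨ X.P.ty n = Ty.B → ∀ i,
    |∑ v ∈ qV X n false i, ((nb (thin G X.P) v).card : ℝ) -
      ∑ v ∈ qV X n true i, ((nb (thin G X.P) v).card : ℝ)| ≤ Cm * ((S (X.sc n)).ζ * d)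

/-- The family `I` contains all sets which are needed for `PcL`. -/
structure TsI (S : Fin J → Scl) (G : SimpleGraph V) (d : ℕ) (X : XD V N J)
    (I : Finset (Finset V)) : Prop where
  gN : ∀ n, X.P.ty n = Ty.N → ∃ (k : ℕ) (c : Ts X.P n → Fin k),
    GoodN G X.P d (S (X.sc n)).ρ (S (X.sc n)).ρ n k c ∧
      ∀ m : Fin k, cset X.P n (fun v => (c v : ℕ)) m ∈ I
  gB : ∀ n, X.P.ty n = Ty.B → ∃ (k : ℕ) (c : Ts X.P n → Fin k),
    GoodB G X.P d (S (X.sc n)).ρ (S (X.sc n)).ρ n k c ∧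
      ∀ (m : Fin k) β, cset X.P n (fun v => (c v : ℕ)) m ∩ sV X.P n β ∈ I
  nN : ∀ n, X.P.ty n = Ty.N → ∀ v ∈ pV X.P n, nb G v ∩ pV X.P n ∈ I
  nB : ∀ n, X.P.ty n = Ty.B → ∀ v ∈ pV X.P n, nb G v ∩ sV X.P n (!(X.P.sd v)) ∈ I
  wB : ∀ n, X.P.ty n = Ty.B → ∀ w β, sV X.P n β \ nb G w ∈ I
  kK : ∀ n, X.P.ty n = Ty.K → pV X.P n \ X.Hv ∈ I

end defs

section pcl
variable {V : Type u} {N J : ℕ} [Fintype V]

theorem qV_eq (X : XD V N J) (n : Fin N) (β i : Bool) :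
    MP_db9399_xf.qV X n β i = MP_db9399_da.qV X.P n β i := by
  ext v
  rw [MP_db9399_xf.qV, mem_filter, mem_sV, mem_qV]
  tauto

theorem mem_cset (P : Pcs V N) (n : Fin N) (cl : Ts P n → ℕ) (m : ℕ) (v : Ts P n) :
    v.1 ∈ cset P n cl m ↔ cl v = m := by
  rw [cset, mem_filter]
  constructor
  · rintro ⟨-, h, h1⟩
    exact h1
  · intro h
    exact ⟨mem_univ _, v.2, h⟩

theorem cset_sub (P : Pcs V N) (n : Fin N) (cl : Ts P n → ℕ) (m : ℕ) :
    cset P n cl m ⊆ pV P n := by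
  intro v hv
  rw [cset, mem_filter] at hv
  obtain ⟨-, h, -⟩ := hv
  exact (MP_db9399_da.helper99.PA.mem_pV P n v).2 h

theorem card_pV {C g z θk θ' η a : ℝ} {M : ℕ} {S : Fin J → Scl} {G : SimpleGraph V} {d : ℕ}
    {X : XD V N J} (hP : PcD C g z θk θ' η a M S G d X) (hC : 0 ≤ C) (n : Fin N) :
    ((pV X.P n).card : ℝ) ≤ C * d := by
  rcases (pV X.P n).eq_empty_or_nonempty with h | h
  · rw [h, card_empty, Nat.cast_zero]
    positivity
  · obtain ⟨v, hv⟩ := h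
    rw [MP_db9399_da.helper99.PA.mem_pV] at hv
    obtain ⟨k, hk⟩ := Option.ne_none_iff_exists'.1 (hP.cln v hv.1)
    refine le_trans ?_ (hP.clc k)
    have h1 : (pV X.P n).card ≤ (univ.filter (fun v => X.cq v = some k)).card := by
      apply card_le_card
      intro w hw
      rw [MP_db9399_da.helper99.PA.mem_pV] at hw
      rw [mem_filter]
      refine ⟨mem_univ _, ?_⟩
      rw [← hk]
      exact hP.clp w v hw.1 hv.1 (by rw [hw.2, hv.2])
    exact_mod_cast h1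

/-- degrees in the bulk graph -/
theorem deg_bkD {C g z θk θ' η a : ℝ} {M : ℕ} {S : Fin J → Scl} {G : SimpleGraph V} {d : ℕ}
    {X : XD V N J} (hP : PcD C g z θk θ' η a M S G d X) {n : Fin N}
    (hn : X.P.ty n = Ty.N ∨ X.P.ty n = Ty.B) (v : Ts X.P n) :
    (nb (bk G X.P n) v).card ≤ d ∧
      (1 - (S (X.sc n)).ζ) * d ≤ ((nb (bk G X.P n) v).card : ℝ) := by
  have h1 := nb_split G X.P v.1
  have h2 := card_nb_bk G X.P n v
  have h4 : (nb G v.1).card = d := hP.reg v.1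
  have h3 := hP.thd v.1 (by
    rcases hn with hn | hn
    · exact Or.inl (inT_of hn v)
    · exact Or.inr (inT_of hn v))
  rw [v.2.2] at h3
  have h5 : (nb (bk G X.P n) v).card + (nb (thin G X.P) v.1).card = d := by
    rw [h2, h1, h4]
  constructor
  · omega
  · have h6 : ((nb (bk G X.P n) v).card : ℝ) + ((nb (thin G X.P) v.1).card : ℝ) = d := by
      exact_mod_cast h5
    linarith

variable {C Cm g z θk θ' η a : ℝ} {M : ℕ} {S : Fin J → Scl} {G : SimpleGraph V} {d : ℕ}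
  {X : XD V N J} {I : Finset (Finset V)}

theorem mem_pV' (v : V) (n : Fin N) : v ∈ pV X.P n ↔ v ∉ X.P.V0 ∧ X.P.pc v = n :=
  MP_db9399_da.helper99.PA.mem_pV X.P n v

theorem cutN (hL : LabT Cm I S G d X) (hI : TsI S G d X I)
    (h1 : ∀ s, (d : ℝ) ^ (9 / 10 : ℝ) ≤ (S s).ρ * d) (n : Fin N) (hn : X.P.ty n = Ty.N) :
    ∀ i, ∀ T ⊆ prt (ptn X.P n) i,
    (S (X.sc n)).ρ * T.card * (prt (ptn X.P n) i \ T).card ≤
      ∑ v ∈ T, (((nb (bk G X.P n) v \ T) ∩
        qtr (sdn X.P n) (ptn X.P n) (!(sdn X.P n v)) i).card : ℝ) := by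
  obtain ⟨k, c, hg, hm⟩ := hI.gN n hn
  refine hg (sdn X.P n) (ptn X.P n) ?_ ?_
  · intro m β i
    have h2 := hL.tN _ (hm m) n hn (cset_sub _ _ _ _) β i
    have e1 : ((qtr (sdn X.P n) (ptn X.P n) β i).filter (fun v => c v = m)).card =
        ((cset X.P n (fun v => (c v : ℕ)) m).filter
          (fun v => X.P.sd v = β ∧ X.P.pt v = i)).card :=
      ts_card X.P n _ _ (fun v => by
        rw [mem_filter, mem_qtr, mem_filter, mem_cset, Fin.val_inj]
        exact ⟨fun h => ⟨h.2, h.1⟩, fun h => ⟨h.2, h.1⟩⟩)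
        (fun v hv => (mem_pV' v n).1 (cset_sub _ _ _ _ (mem_filter.1 hv).1))
    have e2 : ((univ : Finset (Ts X.P n)).filter (fun v => c v = m)).card =
        (cset X.P n (fun v => (c v : ℕ)) m).card :=
      ts_card X.P n _ _ (fun v => by
        rw [mem_filter, mem_cset, Fin.val_inj]
        exact ⟨fun h => h.2, fun h => ⟨mem_univ _, h⟩⟩)
        (fun v hv => (mem_pV' v n).1 (cset_sub _ _ _ _ hv))
    rw [e1, e2]
    exact h2.trans (h1 _)
  · intro u β i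
    have h2 := hL.tN _ (hI.nN n hn u.1 ((mem_pV' _ _).2 u.2)) n hn inter_subset_right β i
    have hnB : X.P.ty n ≠ Ty.B := by rw [hn]; decide
    have e1 : (nb (bk G X.P n) u ∩ qtr (sdn X.P n) (ptn X.P n) β i).card =
        ((nb G u.1 ∩ pV X.P n).filter (fun v => X.P.sd v = β ∧ X.P.pt v = i)).card :=
      ts_card X.P n _ _ (fun v => by
        rw [mem_inter, mem_qtr, mem_filter, mem_inter, MP_db9399_da.helper99.PA.mem_nb,
          MP_db9399_da.helper99.PA.mem_nb, adj_nB G X.P n hnB, mem_pV']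
        exact ⟨fun h => ⟨⟨h.1, v.2⟩, h.2⟩, fun h => ⟨h.1.1, h.2⟩⟩)
        (fun v hv => (mem_pV' v n).1 (mem_inter.1 (mem_filter.1 hv).1).2)
    rw [e1, card_nbN G X.P n hnB]
    exact h2.trans (h1 _)

theorem cutB (hL : LabT Cm I S G d X) (hI : TsI S G d X I)
    (h1 : ∀ s, (d : ℝ) ^ (9 / 10 : ℝ) ≤ (S s).ρ * d) (n : Fin N) (hn : X.P.ty n = Ty.B) :
    ∀ i, ∀ T ⊆ prt (ptn X.P n) i,
    (S (X.sc n)).ρ * T.card * (prt (ptn X.P n) i \ T).card ≤
      ∑ v ∈ T, (((nb (bk G X.P n) v \ T) ∩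
        qtr (sdn X.P n) (ptn X.P n) (!(sdn X.P n v)) i).card : ℝ) := by
  obtain ⟨k, c, hg, hm⟩ := hI.gB n hn
  refine hg (ptn X.P n) ?_ ?_
  · intro m β i
    have hs : cset X.P n (fun v => (c v : ℕ)) m ∩ sV X.P n β ⊆ pV X.P n :=
      inter_subset_left.trans (cset_sub _ _ _ _)
    have h2 := hL.tB _ (hm m β) n hn hs i
    have e1 : ((qtr (sdn X.P n) (ptn X.P n) β i).filter (fun v => c v = m)).card =
        ((cset X.P n (fun v => (c v : ℕ)) m ∩ sV X.P n β).filter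
          (fun v => X.P.pt v = i)).card :=
      ts_card X.P n _ _ (fun v => by
        rw [mem_filter, mem_qtr, mem_filter, mem_inter, mem_cset, Fin.val_inj, mem_sV]
        exact ⟨fun h => ⟨⟨h.2, v.2.1, v.2.2, h.1.1⟩, h.1.2⟩,
          fun h => ⟨⟨h.1.2.2.2, h.2⟩, h.1.1⟩⟩)
        (fun v hv => (mem_pV' v n).1 (hs (mem_filter.1 hv).1))
    have e2 : ((sid (sdn X.P n) β).filter (fun v => c v = m)).card =
        (cset X.P n (fun v => (c v : ℕ)) m ∩ sV X.P n β).card :=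
      ts_card X.P n _ _ (fun v => by
        rw [mem_filter, mem_sid, mem_inter, mem_cset, Fin.val_inj, mem_sV]
        exact ⟨fun h => ⟨h.2, v.2.1, v.2.2, h.1⟩, fun h => ⟨h.2.2.2, h.1⟩⟩)
        (fun v hv => (mem_pV' v n).1 (hs hv))
    rw [e1, e2]
    exact h2.trans (h1 _)
  · intro u i
    have hs : nb G u.1 ∩ sV X.P n (!(X.P.sd u.1)) ⊆ pV X.P n := by
      intro w hw
      have h3 := (mem_sV X.P n _ w).1 (mem_inter.1 hw).2
      exact (mem_pV' w n).2 ⟨h3.1, h3.2.1⟩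
    have h2 := hL.tB _ (hI.nB n hn u.1 ((mem_pV' _ _).2 u.2)) n hn hs i
    have e1 : (nb (bk G X.P n) u ∩ prt (ptn X.P n) i).card =
        ((nb G u.1 ∩ sV X.P n (!(X.P.sd u.1))).filter (fun v => X.P.pt v = i)).card :=
      ts_card X.P n _ _ (fun v => by
        rw [mem_inter, mem_prt, mem_filter, mem_inter, MP_db9399_da.helper99.PA.mem_nb,
          MP_db9399_da.helper99.PA.mem_nb, adj_B G X.P n hn, mem_sV, Bool.eq_not]
        exact ⟨fun h => ⟨⟨h.1.1, v.2.1, v.2.2, fun h' => h.1.2 h'.symm⟩, h.2⟩,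
          fun h => ⟨⟨h.1.1, fun h' => h.1.2.2.2 h'.symm⟩, h.2⟩⟩)
        (fun v hv => (mem_pV' v n).1 (hs (mem_filter.1 hv).1))
    rw [e1, card_nbB G X.P n hn]
    exact h2.trans (h1 _)

theorem num_nD {x b y D e z : ℝ} (h1 : |x - b / 4| ≤ y) (h2 : b ≤ D) (h3 : (1 - z) * D ≤ b)
    (h4 : y ≤ e / 2 * D) (h5 : z ≤ e) (hD : 0 ≤ D) (he : 0 ≤ e) : |x - D / 4| ≤ e * D := by
  rw [abs_le] at h1 ⊢
  have h6 : z * D ≤ e * D := mul_le_mul_of_nonneg_right h5 hD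
  have h7 : 0 ≤ e * D := mul_nonneg he hD
  constructor
  · nlinarith [h1.1]
  · nlinarith [h1.2]

theorem num_bD {x b y D e z : ℝ} (h1 : |x - b / 2| ≤ y) (h2 : b ≤ D) (h3 : (1 - z) * D ≤ b)
    (h4 : y ≤ e / 2 * D) (h5 : z ≤ e) (hD : 0 ≤ D) (he : 0 ≤ e) : |x - D / 2| ≤ e * D := by
  rw [abs_le] at h1 ⊢
  have h6 : z * D ≤ e * D := mul_le_mul_of_nonneg_right h5 hD
  have h7 : 0 ≤ e * D := mul_nonneg he hD
  constructor
  · nlinarith [h1.1]
  · nlinarith [h1.2]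

theorem num_lb {x b y D z : ℝ} (h1 : |x - b / 2| ≤ y) (h2 : z / 8 * D ≤ b)
    (h3 : y ≤ z / 80 * D) : 2 / 5 * b ≤ x := by
  rw [abs_le] at h1
  linarith [h1.1]

theorem num_kC {l A h H p D y e tk : ℝ} (h1 : |l - A / 6| ≤ y) (hh : 0 ≤ h) (hH : h ≤ H)
    (hp : A + H = p) (hHp : H ≤ e * p) (hpD : p ≤ (1 + tk) * D) (htk : tk ≤ 1 / 100)
    (hy : y ≤ e / 10 * D) (he : 0 ≤ e) (hD : 0 ≤ D) : |(l + h) - p / 6| ≤ e * D := by
  have h2 : p ≤ 101 / 100 * D := by nlinarith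
  have h3 : H ≤ e * (101 / 100 * D) := hHp.trans (mul_le_mul_of_nonneg_left h2 he)
  have h4 : 0 ≤ e * D := mul_nonneg he hD
  rw [abs_le] at h1 ⊢
  constructor
  · nlinarith [h1.1]
  · nlinarith [h1.2]

/-- **The labels.** -/
theorem pcL (hP : PcD C g z θk θ' η a M S G d X) (hL : LabT Cm I S G d X) (hI : TsI S G d X I)
    (hθk : θk ≤ 1 / 100) (hη : 0 ≤ η)
    (h1 : ∀ s, (d : ℝ) ^ (9 / 10 : ℝ) ≤ (S s).ρ * d)
    (h2 : ∀ s, (d : ℝ) ^ (9 / 10 : ℝ) ≤ (S s).ε / 2 * d)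
    (h3 : ∀ s, (d : ℝ) ^ (9 / 10 : ℝ) ≤ (S s).ζ / 80 * d)
    (h4 : (d : ℝ) ^ (9 / 10 : ℝ) ≤ η / 10 * d) (hCm : 1 ≤ Cm)
    (hζm : ∀ s, Cm * (S s).ζ ≤ (S s).ε) (hζ0 : ∀ s, 0 ≤ (S s).ζ) : PcL S η G d X := by
  have hd0 : (0 : ℝ) ≤ d := Nat.cast_nonneg _
  have hζ : ∀ s, (S s).ζ ≤ (S s).ε := fun s => by
    have h1 : (S s).ζ ≤ Cm * (S s).ζ := le_mul_of_one_le_left (hζ0 s) hCm
    exact h1.trans (hζm s)
  have hε : ∀ s, 0 ≤ (S s).ε := fun s => (hζ0 s).trans (hζ s)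
  refine { kC := ?_, cutP := ?_, nS := ?_, nD := ?_, bB := ?_, bS := ?_, bD := ?_, thq := ?_
           lbw := ?_ }
  · intro n hn i l
    have h5 := hL.tK _ (hI.kK n hn) n hn sdiff_subset i l
    have e1 : (MP_db9399_lt.cell (thn X.P n) (sdn X.P n) i l).card =
        ((pV X.P n).filter (fun v => X.P.th v = i ∧ X.P.sd v = l)).card :=
      ts_card X.P n _ _ (fun v => by
        rw [MP_db9399_lt.cell, mem_filter, mem_filter, mem_pV']
        exact ⟨fun h => ⟨v.2, h.2⟩, fun h => ⟨mem_univ _, h.2⟩⟩)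
        (fun v hv => (mem_pV' v n).1 (mem_filter.1 hv).1)
    have e2 : ((pV X.P n).filter (fun v => X.P.th v = i ∧ X.P.sd v = l)).card =
        ((pV X.P n \ X.Hv).filter (fun v => X.P.th v = i ∧ X.P.sd v = l)).card +
        ((pV X.P n ∩ X.Hv).filter (fun v => X.P.th v = i ∧ X.P.sd v = l)).card := by
      rw [← card_union_of_disjoint, ← filter_union]
      · congr 2
        ext v
        rw [mem_union, mem_sdiff, mem_inter]
        tauto
      · exact disjoint_filter_filter (disjoint_left.2 fun v hv hv' =>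
          (mem_sdiff.1 hv).2 (mem_inter.1 hv').2)
    have e3 : (pV X.P n \ X.Hv).card + (pV X.P n ∩ X.Hv).card = (pV X.P n).card :=
      card_sdiff_add_card_inter _ _
    have e4 : ((pV X.P n ∩ X.Hv).filter (fun v => X.P.th v = i ∧ X.P.sd v = l)).card ≤
        (pV X.P n ∩ X.Hv).card := card_le_card (filter_subset _ _)
    rw [e1, e2, Nat.cast_add, MP_db9399_da.helper99.PA.card_Ts]
    exact num_kC h5 (Nat.cast_nonneg _) (by exact_mod_cast e4) (by exact_mod_cast e3)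
      (hP.kh n hn) (hP.kU n hn) hθk h4 hη hd0
  · intro n hn
    rcases hn with hn | hn
    · exact cutN hL hI h1 n hn
    · exact cutB hL hI h1 n hn
  · intro n hn β i
    rw [card_qtr, MP_db9399_da.helper99.PA.card_Ts, ← qV_eq]
    exact hL.cN n hn β i
  · intro n hn v β i
    have h5 := hL.tN _ (hI.nN n hn v.1 ((mem_pV' _ _).2 v.2)) n hn inter_subset_right β i
    have hnB : X.P.ty n ≠ Ty.B := by rw [hn]; decide
    have e1 : (nb (bk G X.P n) v ∩ qtr (sdn X.P n) (ptn X.P n) β i).card =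
        ((nb G v.1 ∩ pV X.P n).filter (fun v => X.P.sd v = β ∧ X.P.pt v = i)).card :=
      ts_card X.P n _ _ (fun v => by
        rw [mem_inter, mem_qtr, mem_filter, mem_inter, MP_db9399_da.helper99.PA.mem_nb,
          MP_db9399_da.helper99.PA.mem_nb, adj_nB G X.P n hnB, mem_pV']
        exact ⟨fun h => ⟨⟨h.1, v.2⟩, h.2⟩, fun h => ⟨h.1.1, h.2⟩⟩)
        (fun v hv => (mem_pV' v n).1 (mem_inter.1 (mem_filter.1 hv).1).2)
    rw [← card_nbN G X.P n hnB] at h5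
    rw [e1]
    obtain ⟨h6, h7⟩ := deg_bkD hP (Or.inl hn) v
    exact num_nD h5 (by exact_mod_cast h6) h7 (h2 _) (hζ _) hd0 (hε _)
  · intro n hn i
    rw [card_qtr, card_qtr, ← qV_eq, ← qV_eq]
    exact hL.cB n hn i
  · intro n hn i
    rw [card_qtr, card_qtr, ← qV_eq, ← qV_eq]
    exact hL.cS n hn i
  · intro n hn u i
    have hs : nb G u.1 ∩ sV X.P n (!(X.P.sd u.1)) ⊆ pV X.P n := by
      intro w hw
      have h3 := (mem_sV X.P n _ w).1 (mem_inter.1 hw).2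
      exact (mem_pV' w n).2 ⟨h3.1, h3.2.1⟩
    have h5 := hL.tB _ (hI.nB n hn u.1 ((mem_pV' _ _).2 u.2)) n hn hs i
    have e1 : (nb (bk G X.P n) u ∩ prt (ptn X.P n) i).card =
        ((nb G u.1 ∩ sV X.P n (!(X.P.sd u.1))).filter (fun v => X.P.pt v = i)).card :=
      ts_card X.P n _ _ (fun v => by
        rw [mem_inter, mem_prt, mem_filter, mem_inter, MP_db9399_da.helper99.PA.mem_nb,
          MP_db9399_da.helper99.PA.mem_nb, adj_B G X.P n hn, mem_sV, Bool.eq_not]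
        exact ⟨fun h => ⟨⟨h.1.1, v.2.1, v.2.2, fun h' => h.1.2 h'.symm⟩, h.2⟩,
          fun h => ⟨⟨h.1.1, fun h' => h.1.2.2.2 h'.symm⟩, h.2⟩⟩)
        (fun v hv => (mem_pV' v n).1 (hs (mem_filter.1 hv).1))
    rw [← card_nbB G X.P n hn] at h5
    rw [e1]
    obtain ⟨h6, h7⟩ := deg_bkD hP (Or.inr hn) u
    exact num_bD h5 (by exact_mod_cast h6) h7 (h2 _) (hζ _) hd0 (hε _)
  · intro n hn i
    refine (hL.thq n hn i).trans ?_
    rw [← mul_assoc]
    exact mul_le_mul_of_nonneg_right (hζm _) hd0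
  · intro n hn w _ β i hw
    have hs : sV X.P n β \ nb G w ⊆ pV X.P n := by
      intro v hv
      have h3 := (mem_sV X.P n _ v).1 (mem_sdiff.1 hv).1
      exact (mem_pV' v n).2 ⟨h3.1, h3.2.1⟩
    have h5 := hL.tB _ (hI.wB n hn w β) n hn hs i
    have e1 : MP_db9399_xf.qV X n β i \ nb G w =
        (sV X.P n β \ nb G w).filter (fun v => X.P.pt v = i) := by
      ext v
      rw [MP_db9399_xf.qV, mem_sdiff, mem_filter, mem_filter, mem_sdiff]
      tauto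
    rw [e1]
    exact num_lb h5 hw (h3 _)

end pcl

end Pool.Agent.Work.MP_db9399_lpl
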