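import Pool.Agent.Work.MP_db9399_lpl_helper62.LPL
import Pool.Agent.Work.MP_db9399_dx_helper26.Relab
import Pool.Agent.Work.MP_db9399_da_helper73.CPN
import Pool.Agent.Work.MP_db9399_da_helper73.PCUT
import Pool.Agent.Work.MP_db9399_da_helper73.WR
import Pool.Agent.Work.MP_db9399_da_helper19.DCUT

/-!
# MP_db9399, all scales: the test sets of the labels (helper62)
-/

set_option autoImplicit false

namespace Pool.Agent.Work.MP_db9399_lpl

open Finset Classical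
open Pool.Agent.Work.MP_db9399_all (nb)
open Pool.Agent.Work.MP_db9399_da
open Pool.Agent.Work.MP_db9399_xf
open Pool.Agent.Work.MP_db9399_dx
open Pool.Agent.Work.MP_db9399_iv (SameX)
open Pool.Agent.Work.MP_db9399_da.helper99.PA

universe u

section relab
variable {V : Type u} {N J : ℕ} [Fintype V]

theorem goodN_relab {G : SimpleGraph V} {P : Pcs V N} {d : ℕ} {ρ ι : ℝ} {n : Fin N} {k : ℕ}
    {c : Ts P n → Fin k} (sd pt : V → Bool) (th : V → Fin 3) (h : GoodN G P d ρ ι n k c) :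
    GoodN G (relabP P sd pt th) d ρ ι n k c := by
  unfold GoodN at h ⊢
  rw [relab_bk]
  exact h

theorem relab_sdn {P : Pcs V N} {n : Fin N} (hn : P.ty n = Ty.B) (sd pt : V → Bool)
    (th : V → Fin 3) : sdn (relabP P sd pt th) n = sdn P n := by
  funext v
  exact relabP_sd P sd pt th v.1 (by
    have h : P.pc v.1 = n := v.2.2
    rw [h]; exact hn)

theorem goodB_relab {G : SimpleGraph V} {P : Pcs V N} {d : ℕ} {ρ ι : ℝ} {n : Fin N} {k : ℕ}
    {c : Ts P n → Fin k} (hn : P.ty n = Ty.B) (sd pt : V → Bool) (th : V → Fin 3)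
    (h : GoodB G P d ρ ι n k c) :
    GoodB G (relabP P sd pt th) d ρ ι n k c := by
  unfold GoodB at h ⊢
  rw [relab_bk, relab_sdn hn]
  exact h

theorem cset_relab {P : Pcs V N} {n : Fin N} (c : Ts P n → ℕ) (m : ℕ) (sd pt : V → Bool)
    (th : V → Fin 3) : cset (relabP P sd pt th) n c m = cset P n c m := rfl

theorem TsI.relab {S : Fin J → Scl} {G : SimpleGraph V} {d : ℕ} {X : XD V N J}
    {I : Finset (Finset V)} (h : TsI S G d X I) (sd pt : V → Bool) (th : V → Fin 3) :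
    TsI S G d (relab X sd pt th) I := by
  refine { gN := ?_, gB := ?_, nN := h.nN, nB := ?_, wB := ?_, kK := h.kK }
  · intro n hn
    obtain ⟨k, c, h1, h2⟩ := h.gN n hn
    have h3 := goodN_relab (P := X.P) sd pt th h1
    show ∃ (k : ℕ) (c : Ts (relabP X.P sd pt th) n → Fin k),
      GoodN G (relabP X.P sd pt th) d (S (X.sc n)).ρ (S (X.sc n)).ρ n k c ∧
      ∀ m : Fin k, cset (relabP X.P sd pt th) n (fun v => (c v : ℕ)) m ∈ I
    exact ⟨k, c, h3, fun m => h2 m⟩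
  · intro n hn'
    have hn : X.P.ty n = Ty.B := hn'
    obtain ⟨k, c, h1, h2⟩ := h.gB n hn
    have h3 := goodB_relab (P := X.P) hn sd pt th h1
    show ∃ (k : ℕ) (c : Ts (relabP X.P sd pt th) n → Fin k),
      GoodB G (relabP X.P sd pt th) d (S (X.sc n)).ρ (S (X.sc n)).ρ n k c ∧
      ∀ (m : Fin k) β, cset (relabP X.P sd pt th) n (fun v => (c v : ℕ)) m ∩
        sV (relabP X.P sd pt th) n β ∈ I
    refine ⟨k, c, h3, fun m β => ?_⟩
    rw [relab_sV X.P sd pt th n hn β]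
    exact h2 m β
  · intro n hn' v hv'
    have hn : X.P.ty n = Ty.B := hn'
    have hv : v ∈ pV X.P n := hv'
    have h3 := h.nB n hn v hv
    have h4 : X.P.pc v = n := ((mem_pV' v n).1 hv).2
    show nb G v ∩ sV (relabP X.P sd pt th) n (!((relabP X.P sd pt th).sd v)) ∈ I
    rw [relab_sV X.P sd pt th n hn, relabP_sd X.P sd pt th v (by rw [h4]; exact hn)]
    exact h3
  · intro n hn' w β
    have hn : X.P.ty n = Ty.B := hn'
    show sV (relabP X.P sd pt th) n β \ nb G w ∈ I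
    rw [relab_sV X.P sd pt th n hn β]
    exact h.wB n hn w β

theorem same_relab {X X' : XD V N J} (h : SameX X X') :
    X' = MP_db9399_dx.relab X X'.P.sd X'.P.pt X'.P.th := by
  obtain ⟨P, sc, cq, Hv⟩ := X
  obtain ⟨P', sc', cq', Hv'⟩ := X'
  obtain ⟨V0, pc, ty, rg, sd, pt, th⟩ := P
  obtain ⟨V0', pc', ty', rg', sd', pt', th'⟩ := P'
  obtain ⟨h1, h2, h3, h4, h5, h6, h7, h8⟩ := h
  simp only at h1 h2 h3 h4 h5 h6 h7 h8
  subst h1 h2 h3 h4 h6 h7 h8
  have h9 : sd' = fun v => if ty' (pc' v) = Ty.B then sd v else sd' v := by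
    funext v
    by_cases hv : ty' (pc' v) = Ty.B
    · rw [if_pos hv]
      exact h5 v hv
    · rw [if_neg hv]
  unfold MP_db9399_dx.relab relabP
  simp only
  congr 2

end relab

section tests
variable {V : Type u} {N J : ℕ} [Fintype V]
variable {C g z θk θ' η a : ℝ} {M : ℕ} {S : Fin J → Scl} {G : SimpleGraph V} {d : ℕ}
  {X : XD V N J}

theorem hTs (hP : PcD C g z θk θ' η a M S G d X) (hC : 0 ≤ C) (n : Fin N) :
    (Fintype.card (Ts X.P n) : ℝ) ≤ C * d := by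
  rw [MP_db9399_da.helper99.PA.card_Ts]
  exact card_pV hP hC n

theorem hdeg (hP : PcD C g z θk θ' η a M S G d X) {n : Fin N}
    (hn : X.P.ty n = Ty.N ∨ X.P.ty n = Ty.B) {ι : ℝ} (hι : (S (X.sc n)).ζ ≤ ι) (v : Ts X.P n) :
    (nb (bk G X.P n) v).card ≤ d ∧ (1 - ι) * d ≤ ((nb (bk G X.P n) v).card : ℝ) := by
  obtain ⟨h1, h2⟩ := deg_bkD hP hn v
  exact ⟨h1, le_trans (mul_le_mul_of_nonneg_right (by linarith) (Nat.cast_nonneg _)) h2⟩

/-- the statement of `Stmt_CPN` with all constants -/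
def CpnAt (C ρ : ℝ) (Mn dn : ℕ) (ρn ιn : ℝ) : Prop :=
    ∀ {V : Type u} [Fintype V] (G : SimpleGraph V) (d : ℕ), dn ≤ d →
      (Fintype.card V : ℝ) ≤ C * d →
      (∀ v, (nb G v).card ≤ d ∧ (1 - ιn) * d ≤ ((nb G v).card : ℝ)) →
      (∀ S : Finset V, ρ * S.card * (univ \ S).card ≤ ∑ v ∈ S, ((nb G v \ S).card : ℝ)) →
      (∀ S : Finset V, ρ * (d : ℝ) ^ 2 ≤
        ∑ v ∈ S, ((nb G v ∩ S).card : ℝ) + ∑ v ∈ univ \ S, ((nb G v \ S).card : ℝ)) →
      ∃ cl : V → Fin Mn, ∀ sd pt : V → Bool,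
        (∀ m β i, |(((qtr sd pt β i).filter (fun v => cl v = m)).card : ℝ) -
          ((univ : Finset V).filter (fun v => cl v = m)).card / 4| ≤ ιn * d) →
        (∀ u β i, |((nb G u ∩ qtr sd pt β i).card : ℝ) - (nb G u).card / 4| ≤ ιn * d) →
        ∀ i, ∀ S ⊆ prt pt i, ρn * S.card * (prt pt i \ S).card ≤
          ∑ v ∈ S, (((nb G v \ S) ∩ qtr sd pt (!(sd v)) i).card : ℝ)

/-- the statement of `Stmt_CPB` with all constants -/
def CpbAt (C ρ : ℝ) (Mb db : ℕ) (ρb ιb : ℝ) : Prop :=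
    ∀ {V : Type u} [Fintype V] (G : SimpleGraph V) (d : ℕ) (sd : V → Bool), db ≤ d →
      (Fintype.card V : ℝ) ≤ C * d → (∀ v w, G.Adj v w → sd v ≠ sd w) →
      (∀ v, (nb G v).card ≤ d ∧ (1 - ιb) * d ≤ ((nb G v).card : ℝ)) →
      (∀ S : Finset V, ρ * S.card * (univ \ S).card ≤ ∑ v ∈ S, ((nb G v \ S).card : ℝ)) →
      ∃ cl : V → Fin Mb, ∀ pt : V → Bool,
        (∀ m β i, |(((qtr sd pt β i).filter (fun v => cl v = m)).card : ℝ) -
          ((sid sd β).filter (fun v => cl v = m)).card / 2| ≤ ιb * d) →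
        (∀ u i, |((nb G u ∩ prt pt i).card : ℝ) - (nb G u).card / 2| ≤ ιb * d) →
        ∀ i, ∀ S ⊆ prt pt i, ρb * S.card * (prt pt i \ S).card ≤
          ∑ v ∈ S, (((nb G v \ S) ∩ qtr sd pt (!(sd v)) i).card : ℝ)

theorem goodN (hC : 0 ≤ C) {ρ : Fin J → ℝ}
    (hP : PcD C g z θk θ' η a M (fun s => { S s with ρ := ρ s }) G d X) {n : Fin N}
    (hn : X.P.ty n = Ty.N) {Mn dn : ℕ} {ρn ιn ρ' : ℝ}
    (hcpn : CpnAt.{u} C (ρ (X.sc n)) Mn dn ρn ιn) (hdn : dn ≤ d) (h1 : ρ' ≤ ρn) (h2 : ρ' ≤ ιn)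
    (h3 : (S (X.sc n)).ζ ≤ ιn) :
    ∃ c : Ts X.P n → Fin Mn, GoodN G X.P d ρ' ρ' n Mn c := by
  have hd0 : (0 : ℝ) ≤ d := Nat.cast_nonneg _
  have h5 : CutW (fun a b => Classical.propDecidable (a = b)) (bk G X.P n) (ρ (X.sc n)) :=
    cutW_inst _ _ (hP.cut n (Or.inl hn))
  have h6 : NbiW (fun a b => Classical.propDecidable (a = b)) (bk G X.P n) (ρ (X.sc n)) d :=
    nbiW_inst _ _ (hP.nbi n hn)
  obtain ⟨c, hc⟩ := hcpn (bk G X.P n) d hdn (hTs hP hC n) (hdeg hP (Or.inl hn) h3) h5 h6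
  refine ⟨c, ?_⟩
  intro sd pt h7 h8
  have hι3 : ρ' * d ≤ ιn * d := mul_le_mul_of_nonneg_right h2 hd0
  have h8' : NqW (fun a b => Classical.propDecidable (a = b)) (bk G X.P n) sd pt (ρ' * d) :=
    nqW_inst _ _ h8
  have h9 : PcW (fun a b => Classical.propDecidable (a = b)) (bk G X.P n) sd pt ρn :=
    hc sd pt (fun m β i => (h7 m β i).trans hι3) (fun u β i => (h8' u β i).trans hι3)
  exact pcW_inst _ _ (pcW_mono _ h1 h9)

theorem goodB (hC : 0 ≤ C) {ρ : Fin J → ℝ}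
    (hP : PcD C g z θk θ' η a M (fun s => { S s with ρ := ρ s }) G d X) {n : Fin N}
    (hn : X.P.ty n = Ty.B) {Mb db : ℕ} {ρb ιb ρ' : ℝ}
    (hcpb : CpbAt.{u} C (ρ (X.sc n)) Mb db ρb ιb) (hdb : db ≤ d) (h1 : ρ' ≤ ρb) (h2 : ρ' ≤ ιb)
    (h3 : (S (X.sc n)).ζ ≤ ιb) :
    ∃ c : Ts X.P n → Fin Mb, GoodB G X.P d ρ' ρ' n Mb c := by
  have hd0 : (0 : ℝ) ≤ d := Nat.cast_nonneg _
  have h5 : CutW (fun a b => Classical.propDecidable (a = b)) (bk G X.P n) (ρ (X.sc n)) :=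
    cutW_inst _ _ (hP.cut n (Or.inr hn))
  obtain ⟨c, hc⟩ := hcpb (bk G X.P n) d (sdn X.P n) hdb (hTs hP hC n)
    (fun v w h => ((adj_B G X.P n hn v w).1 h).2) (hdeg hP (Or.inr hn) h3) h5
  refine ⟨c, ?_⟩
  intro pt h7 h8
  have hι3 : ρ' * d ≤ ιb * d := mul_le_mul_of_nonneg_right h2 hd0
  have h8' : NpW (fun a b => Classical.propDecidable (a = b)) (bk G X.P n) pt (ρ' * d) :=
    npW_inst _ _ h8
  have h9 : PcW (fun a b => Classical.propDecidable (a = b)) (bk G X.P n) (sdn X.P n) pt ρb :=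
    hc pt (fun m β i => (h7 m β i).trans hι3) (fun u i => (h8' u i).trans hι3)
  exact pcW_inst _ _ (pcW_mono _ h1 h9)

/-- the test sets of a piece of type N -/
noncomputable def itN (G : SimpleGraph V) (X : XD V N J) (n : Fin N) {k : ℕ}
    (c : Ts X.P n → Fin k) : Finset (Finset V) :=
  (univ : Finset (Fin k)).image (fun m : Fin k => cset X.P n (fun v => (c v : ℕ)) (m : ℕ)) ∪
    (pV X.P n).image (fun v => nb G v ∩ pV X.P n)

/-- the test sets of a piece of type B -/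
noncomputable def itB (G : SimpleGraph V) (X : XD V N J) (n : Fin N) {k : ℕ}
    (c : Ts X.P n → Fin k) : Finset (Finset V) :=
  ((univ : Finset (Fin k × Bool)).image (fun m : Fin k × Bool =>
    cset X.P n (fun v => (c v : ℕ)) (m.1 : ℕ) ∩ sV X.P n m.2) ∪ (pV X.P n).image (fun v => nb G v ∩ sV X.P n (!(X.P.sd v)))) ∪
  (((univ : Finset Bool).image (fun β => sV X.P n β)) ∪
    (((pV X.P n).biUnion (fun v => nb G v)) ×ˢ (univ : Finset Bool)).image
      (fun p => sV X.P n p.2 \ nb G p.1))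

theorem itN_card {n : Fin N} {k : ℕ} (c : Ts X.P n → Fin k) :
    (itN G X n c).card ≤ k + (pV X.P n).card := by
  refine (card_union_le _ _).trans (add_le_add ?_ card_image_le)
  exact card_image_le.trans (by rw [card_univ, Fintype.card_fin])

theorem itB_card (hreg : ∀ v, (nb G v).card = d) {n : Fin N} {k : ℕ} (c : Ts X.P n → Fin k) :
    (itB G X n c).card ≤ 2 * k + (pV X.P n).card + (2 + 2 * ((pV X.P n).card * d)) := by
  refine (card_union_le _ _).trans (add_le_add ((card_union_le _ _).trans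
    (add_le_add ?_ card_image_le)) ((card_union_le _ _).trans (add_le_add ?_ ?_)))
  · exact card_image_le.trans (by
      rw [card_univ, Fintype.card_prod, Fintype.card_fin, Fintype.card_bool, mul_comm])
  · exact card_image_le.trans (by rw [card_univ, Fintype.card_bool])
  · refine card_image_le.trans ?_
    rw [card_product, card_univ, Fintype.card_bool, mul_comm]
    exact Nat.mul_le_mul_left _ (card_biUnion_le_card_mul _ _ _ fun v _ => (hreg v).le)

theorem itN_sub {n : Fin N} {k : ℕ} (c : Ts X.P n → Fin k) :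
    ∀ A ∈ itN G X n c, A ⊆ pV X.P n := by
  intro A hA
  rcases mem_union.1 hA with h | h
  · obtain ⟨m, -, rfl⟩ := mem_image.1 h
    exact cset_sub _ _ _ _
  · obtain ⟨v, -, rfl⟩ := mem_image.1 h
    exact inter_subset_right

theorem sV_sub (n : Fin N) (β : Bool) : sV X.P n β ⊆ pV X.P n := by
  intro v hv
  have h3 := (mem_sV X.P n _ v).1 hv
  exact (mem_pV' v n).2 ⟨h3.1, h3.2.1⟩

theorem itB_sub {n : Fin N} {k : ℕ} (c : Ts X.P n → Fin k) :
    ∀ A ∈ itB G X n c, A ⊆ pV X.P n := by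
  intro A hA
  rcases mem_union.1 hA with h | h
  · rcases mem_union.1 h with h | h
    · obtain ⟨m, -, rfl⟩ := mem_image.1 h
      exact inter_subset_right.trans (sV_sub _ _)
    · obtain ⟨v, -, rfl⟩ := mem_image.1 h
      exact inter_subset_right.trans (sV_sub _ _)
  · rcases mem_union.1 h with h | h
    · obtain ⟨β, -, rfl⟩ := mem_image.1 h
      exact sV_sub _ _
    · obtain ⟨p, -, rfl⟩ := mem_image.1 h
      exact sdiff_subset.trans (sV_sub _ _)

theorem itB_w {n : Fin N} {k : ℕ} (c : Ts X.P n → Fin k) (w : V) (β : Bool) :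
    sV X.P n β \ nb G w ∈ itB G X n c := by
  by_cases h : w ∈ (pV X.P n).biUnion (fun v => nb G v)
  · exact mem_union_right _ (mem_union_right _ (mem_image.2 ⟨(w, β), mem_product.2
      ⟨h, mem_univ _⟩, rfl⟩))
  · refine mem_union_right _ (mem_union_left _ (mem_image.2 ⟨β, mem_univ _, ?_⟩))
    ext v
    rw [mem_sdiff]
    constructor
    · intro hv
      refine ⟨hv, fun h1 => h (mem_biUnion.2 ⟨v, sV_sub _ _ hv, ?_⟩)⟩
      rw [MP_db9399_da.helper99.PA.mem_nb] at h1 ⊢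
      exact h1.symm
    · exact fun hv => hv.1

/-- **Test sets of one piece.** -/
theorem piece (hC : 0 ≤ C) {ρ : Fin J → ℝ}
    (hP : PcD C g z θk θ' η a M (fun s => { S s with ρ := ρ s }) G d X) (n : Fin N)
    {Mn dn Mb db : ℕ} {ρn ιn ρb ιb : ℝ}
    (hcpn : CpnAt.{u} C (ρ (X.sc n)) Mn dn ρn ιn) (hdn : dn ≤ d) (h1 : (S (X.sc n)).ρ ≤ ρn)
    (h2 : (S (X.sc n)).ρ ≤ ιn) (hcpb : CpbAt.{u} C (ρ (X.sc n)) Mb db ρb ιb) (hdb : db ≤ d)
    (h1' : (S (X.sc n)).ρ ≤ ρb) (h2' : (S (X.sc n)).ρ ≤ ιb) (h3 : (S (X.sc n)).ζ ≤ (S (X.sc n)).ρ) :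
    ∃ It : Finset (Finset V), (∀ A ∈ It, A ⊆ pV X.P n ∧ (X.P.ty n = Ty.K → Disjoint A X.Hv)) ∧
      It.card ≤ 2 * (Mn + Mb) + (pV X.P n).card + (2 + 2 * ((pV X.P n).card * d)) ∧
      (X.P.ty n = Ty.N → ∃ (k : ℕ) (c : Ts X.P n → Fin k),
        GoodN G X.P d (S (X.sc n)).ρ (S (X.sc n)).ρ n k c ∧
          ∀ m : Fin k, cset X.P n (fun v => (c v : ℕ)) m ∈ It) ∧
      (X.P.ty n = Ty.B → ∃ (k : ℕ) (c : Ts X.P n → Fin k),
        GoodB G X.P d (S (X.sc n)).ρ (S (X.sc n)).ρ n k c ∧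
          ∀ (m : Fin k) β, cset X.P n (fun v => (c v : ℕ)) m ∩ sV X.P n β ∈ It) ∧
      (X.P.ty n = Ty.N → ∀ v ∈ pV X.P n, nb G v ∩ pV X.P n ∈ It) ∧
      (X.P.ty n = Ty.B → ∀ v ∈ pV X.P n, nb G v ∩ sV X.P n (!(X.P.sd v)) ∈ It) ∧
      (X.P.ty n = Ty.B → ∀ w β, sV X.P n β \ nb G w ∈ It) ∧
      (X.P.ty n = Ty.K → pV X.P n \ X.Hv ∈ It) := by
  by_cases hN : X.P.ty n = Ty.N
  · obtain ⟨c, hc⟩ := goodN hC hP hN hcpn hdn h1 h2 (h3.trans h2)
    have hB : X.P.ty n ≠ Ty.B := by rw [hN]; decide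
    have hK : X.P.ty n ≠ Ty.K := by rw [hN]; decide
    refine ⟨itN G X n c, fun A hA => ⟨itN_sub c A hA, fun h => absurd h hK⟩, ?_,
      fun _ => ⟨Mn, c, hc, fun m => ?_⟩, fun h => absurd h hB, fun _ v hv => ?_,
      fun h => absurd h hB, fun h => absurd h hB, fun h => absurd h hK⟩
    · have := itN_card (G := G) c
      omega
    · exact mem_union_left _ (mem_image.2 ⟨m, mem_univ _, rfl⟩)
    · exact mem_union_right _ (mem_image.2 ⟨v, hv, rfl⟩)
  · by_cases hB : X.P.ty n = Ty.B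
    · obtain ⟨c, hc⟩ := goodB hC hP hB hcpb hdb h1' h2' (h3.trans h2')
      have hK : X.P.ty n ≠ Ty.K := by rw [hB]; decide
      refine ⟨itB G X n c, fun A hA => ⟨itB_sub c A hA, fun h => absurd h hK⟩, ?_,
        fun h => absurd h hN, fun _ => ⟨Mb, c, hc, fun m β => ?_⟩, fun h => absurd h hN,
        fun _ v hv => ?_, fun _ w β => itB_w c w β, fun h => absurd h hK⟩
      · have := itB_card hP.reg c
        omega
      · exact mem_union_left _ (mem_union_left _ (mem_image.2 ⟨(m, β), mem_univ _, rfl⟩))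
      · exact mem_union_left _ (mem_union_right _ (mem_image.2 ⟨v, hv, rfl⟩))
    · refine ⟨{pV X.P n \ X.Hv}, fun A hA => ?_, ?_, fun h => absurd h hN, fun h => absurd h hB,
        fun h => absurd h hN, fun h => absurd h hB, fun h => absurd h hB,
        fun _ => mem_singleton_self _⟩
      · rw [mem_singleton] at hA
        subst hA
        exact ⟨sdiff_subset, fun _ => sdiff_disjoint⟩
      · rw [card_singleton]
        omega

end tests

end Pool.Agent.Work.MP_db9399_lpl
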