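import Pool.Agent.Work.MP_db9399_lpl_helper62.LPL2

/-!
# MP_db9399, all scales: `Stmt_LPL` (helper62)

For a labelling `X'` of the pieces of `X` it is enough that it splits the test sets `A ∈ I` and has
the exact numbers (`LabT`): then `PcX` for `X'`.
-/

set_option autoImplicit false

namespace Pool.Agent.Work.MP_db9399_lpl

open Finset Classical
open Pool.Agent.Work.MP_db9399_all (nb)
open Pool.Agent.Work.MP_db9399_da
open Pool.Agent.Work.MP_db9399_xf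
open Pool.Agent.Work.MP_db9399_dx
open Pool.Agent.Work.MP_db9399_iv (SameX)

universe u

/-- LPL. `rr`: the constant `ρ` of the parts, from the constant `ρ1` of the pieces. -/
def Stmt_LPL : Prop :=
  ∀ C Cm : ℝ, 1 ≤ C → 1 ≤ Cm → ∃ rr : ℝ → ℝ, (∀ r, 0 < r → r ≤ 1 → 0 < rr r ∧ rr r ≤ r) ∧
    ∃ T : Thr, T.Pos ∧ ∀ (η : ℝ) (J : ℕ) (S : Fin J → Scl) (ρ1 : Fin J → ℝ), 0 < η →
      (∀ s, Adm T (S s)) → (∀ s, 0 < ρ1 s ∧ ρ1 s ≤ 1 ∧ (S s).ρ = rr (ρ1 s)) → ∃ d0 : ℕ,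
    ∀ {V : Type u} [Fintype V] {N : ℕ} (G : SimpleGraph V) (d : ℕ) (X : XD V N J)
      (g z θk θ' a : ℝ) (M : ℕ), d0 ≤ d → θk ≤ 1 / 100 →
      PcD C g z θk θ' η a M (fun s => { S s with ρ := ρ1 s }) G d X →
      ∃ I : Finset (Finset V),
        (∀ A ∈ I, ∃ n, A ⊆ pV X.P n ∧ (X.P.ty n = Ty.K → Disjoint A X.Hv)) ∧
        (∀ A ∈ I, A.card ≤ d ^ 3) ∧ (∀ v, (I.filter (fun A => v ∈ A)).card ≤ d ^ 3) ∧
        ∀ X' : XD V N J, SameX X X' → LabT Cm I S G d X' → PcX C g z θk θ' η a M S G d X'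

theorem small_pow {κ : ℝ} (hκ : 0 < κ) {d : ℕ} (hd : ⌈(1 / κ) ^ 10⌉₊ + 1 ≤ d) :
    (d : ℝ) ^ (9 / 10 : ℝ) ≤ κ * d := by
  have hd1 : (1 / κ) ^ 10 ≤ (d : ℝ) := by
    refine (Nat.le_ceil _).trans ?_
    exact_mod_cast (by omega : ⌈(1 / κ) ^ 10⌉₊ ≤ d)
  have hd0 : (0 : ℝ) < d := by exact_mod_cast (by omega : 0 < d)
  have h1 : (d : ℝ) ^ (9 / 10 : ℝ) * (d : ℝ) ^ (1 / 10 : ℝ) = d := by
    rw [← Real.rpow_add hd0]
    norm_num
  have h2 : 1 / κ ≤ (d : ℝ) ^ (1 / 10 : ℝ) := by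
    have h3 : ((1 / κ) ^ 10) ^ (1 / 10 : ℝ) ≤ (d : ℝ) ^ (1 / 10 : ℝ) :=
      Real.rpow_le_rpow (by positivity) hd1 (by norm_num)
    rw [← Real.rpow_natCast, ← Real.rpow_mul (by positivity)] at h3
    norm_num at h3
    rw [one_div]
    norm_num
    exact h3
  have h4 : 1 ≤ κ * (d : ℝ) ^ (1 / 10 : ℝ) := by
    rw [div_le_iff₀ hκ] at h2
    linarith
  have h5 : 0 ≤ (d : ℝ) ^ (9 / 10 : ℝ) := Real.rpow_nonneg hd0.le _
  calc (d : ℝ) ^ (9 / 10 : ℝ) = (d : ℝ) ^ (9 / 10 : ℝ) * 1 := (mul_one _).symm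
    _ ≤ (d : ℝ) ^ (9 / 10 : ℝ) * (κ * (d : ℝ) ^ (1 / 10 : ℝ)) := mul_le_mul_of_nonneg_left h4 h5
    _ = κ * ((d : ℝ) ^ (9 / 10 : ℝ) * (d : ℝ) ^ (1 / 10 : ℝ)) := by ring
    _ = κ * d := by rw [h1]

theorem PcD.mono_rho {V : Type u} [Fintype V] {N J : ℕ} {C g z θk θ' η a : ℝ} {M : ℕ}
    {S : Fin J → Scl} {G : SimpleGraph V} {d : ℕ} {X : XD V N J} {ρ1 : Fin J → ℝ}
    (h : PcD C g z θk θ' η a M (fun s => { S s with ρ := ρ1 s }) G d X)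
    (hρ : ∀ s, (S s).ρ ≤ ρ1 s) : PcD C g z θk θ' η a M S G d X := by
  refine { h with
    cut := ?_
    nbi := ?_ }
  · intro n hn T
    refine le_trans ?_ (h.cut n hn T)
    have h1 : (S (X.sc n)).ρ * ((T.card : ℝ) * (univ \ T).card) ≤
        ρ1 (X.sc n) * ((T.card : ℝ) * (univ \ T).card) :=
      mul_le_mul_of_nonneg_right (hρ _) (by positivity)
    have h2 : (S (X.sc n)).ρ * (T.card : ℝ) * (univ \ T).card =
      (S (X.sc n)).ρ * ((T.card : ℝ) * (univ \ T).card) := by ring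
    rw [h2]
    refine h1.trans (le_of_eq ?_)
    ring
  · intro n hn T
    exact le_trans (mul_le_mul_of_nonneg_right (hρ _) (by positivity)) (h.nbi n hn T)

theorem num_card {C : ℝ} {K p d : ℕ} (hp : (p : ℝ) ≤ C * d)
    (hd : 2 * K + 3 * ⌈C⌉₊ + 3 ≤ d) : 2 * K + p + (2 + 2 * (p * d)) ≤ d ^ 3 := by
  have h1 : p ≤ ⌈C⌉₊ * d := by
    have h2 : (p : ℝ) ≤ ⌈C⌉₊ * d :=
      hp.trans (mul_le_mul_of_nonneg_right (Nat.le_ceil _) (Nat.cast_nonneg _))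
    exact_mod_cast h2
  have h3 : p * d ≤ ⌈C⌉₊ * d * d := Nat.mul_le_mul_right d h1
  have h4 : (2 * K + 3 * ⌈C⌉₊ + 3) * (d * d) ≤ d * (d * d) := Nat.mul_le_mul_right _ hd
  have h5 : d ^ 3 = d * (d * d) := by ring
  have h6 : 1 ≤ d := by omega
  have h7 : d ≤ d * d := by nlinarith
  have h8 : K ≤ K * (d * d) := Nat.le_mul_of_pos_right _ (by nlinarith)
  have h9 : ⌈C⌉₊ * d ≤ ⌈C⌉₊ * (d * d) := Nat.mul_le_mul_left _ h7
  rw [h5]
  nlinarith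

theorem stmt_LPL_of (hCPB : Stmt_CPB.{u}) (hCPN : Stmt_CPN.{u}) : Stmt_LPL.{u} := by
  intro C Cm hC hCm
  have hN : ∀ r : ℝ, ∃ (Mc d0 : ℕ) (ρ' ι : ℝ), 0 < r → 0 < ρ' ∧ 0 < ι ∧
      CpnAt.{u} C r Mc d0 ρ' ι := by
    intro r
    by_cases hr : 0 < r
    · obtain ⟨a1, a2, a3, a4, h1, h2, h3⟩ := hCPN C r hC hr
      exact ⟨a1, a2, a3, a4, fun _ => ⟨h1, h2, fun G d => h3 G d⟩⟩
    · exact ⟨0, 0, 0, 0, fun h => absurd h hr⟩
  have hB : ∀ r : ℝ, ∃ (Mc d0 : ℕ) (ρ' ι : ℝ), 0 < r → 0 < ρ' ∧ 0 < ι ∧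
      CpbAt.{u} C r Mc d0 ρ' ι := by
    intro r
    by_cases hr : 0 < r
    · obtain ⟨a1, a2, a3, a4, h1, h2, h3⟩ := hCPB C r hC hr
      exact ⟨a1, a2, a3, a4, fun _ => ⟨h1, h2, fun G d => h3 G d⟩⟩
    · exact ⟨0, 0, 0, 0, fun h => absurd h hr⟩
  choose Mn dn ρn ιn hn using hN
  choose Mb db ρb ιb hb using hB
  refine ⟨fun r => min r (min (min (ρn r) (ιn r)) (min (ρb r) (ιb r))), fun r hr _ =>
    ⟨lt_min hr (lt_min (lt_min (hn r hr).1 (hn r hr).2.1) (lt_min (hb r hr).1 (hb r hr).2.1)),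
      min_le_left _ _⟩, ⟨fun _ => 1, fun _ _ => 1, fun _ _ _ => 1, fun ρ _ _ ε => min ρ (ε / Cm),
      fun _ _ _ _ _ => 1⟩, ?_, ?_⟩
  · exact ⟨fun _ _ => one_pos, fun _ _ _ _ => one_pos, fun _ _ _ _ _ _ => one_pos,
      fun _ _ _ _ h _ _ h' => lt_min h (div_pos h' (by linarith)), fun _ _ _ _ _ _ _ _ _ _ => one_pos⟩
  intro η J S ρ1 hη hS hρ1
  -- the bound for d
  let D : Fin J → ℕ := fun s => dn (ρ1 s) + db (ρ1 s) + (2 * (Mn (ρ1 s) + Mb (ρ1 s)) + 3 * ⌈C⌉₊ + 3) +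
    (⌈(1 / (S s).ρ) ^ 10⌉₊ + 1) + (⌈(1 / ((S s).ε / 2)) ^ 10⌉₊ + 1) +
    (⌈(1 / ((S s).ζ / 80)) ^ 10⌉₊ + 1)
  refine ⟨univ.sup D + (⌈(1 / (η / 10)) ^ 10⌉₊ + 1) + 1, ?_⟩
  intro V _ N G d X g z θk θ' a M hd hθk hP
  have hD : ∀ s, dn (ρ1 s) + db (ρ1 s) + (2 * (Mn (ρ1 s) + Mb (ρ1 s)) + 3 * ⌈C⌉₊ + 3) +
      (⌈(1 / (S s).ρ) ^ 10⌉₊ + 1) + (⌈(1 / ((S s).ε / 2)) ^ 10⌉₊ + 1) +
      (⌈(1 / ((S s).ζ / 80)) ^ 10⌉₊ + 1) ≤ d := fun s => by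
    have h0 : D s ≤ univ.sup D := le_sup (f := D) (mem_univ s)
    exact h0.trans (by omega)
  have hC0 : (0 : ℝ) ≤ C := by linarith
  have hρ : ∀ s, (S s).ρ ≤ ρ1 s := fun s => by
    rw [(hρ1 s).2.2]
    exact min_le_left _ _
  have hρn : ∀ s, (S s).ρ ≤ ρn (ρ1 s) := fun s => by
    rw [(hρ1 s).2.2]
    exact (min_le_right _ _).trans ((min_le_left _ _).trans (min_le_left _ _))
  have hιn : ∀ s, (S s).ρ ≤ ιn (ρ1 s) := fun s => by
    rw [(hρ1 s).2.2]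
    exact (min_le_right _ _).trans ((min_le_left _ _).trans (min_le_right _ _))
  have hρb : ∀ s, (S s).ρ ≤ ρb (ρ1 s) := fun s => by
    rw [(hρ1 s).2.2]
    exact (min_le_right _ _).trans ((min_le_right _ _).trans (min_le_left _ _))
  have hιb : ∀ s, (S s).ρ ≤ ιb (ρ1 s) := fun s => by
    rw [(hρ1 s).2.2]
    exact (min_le_right _ _).trans ((min_le_right _ _).trans (min_le_right _ _))
  have hζρ : ∀ s, (S s).ζ ≤ (S s).ρ := fun s => (hS s).ζ.2.trans (min_le_left _ _)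
  have hζε : ∀ s, Cm * (S s).ζ ≤ (S s).ε := fun s => by
    have h1 : (S s).ζ ≤ (S s).ε / Cm := (hS s).ζ.2.trans (min_le_right _ _)
    rw [le_div_iff₀ (by linarith)] at h1
    linarith
  have hpc : ∀ n, _ := fun n => piece hC0 hP n ((hn _ (hρ1 (X.sc n)).1).2.2)
    (by have := hD (X.sc n); omega) (hρn _) (hιn _) ((hb _ (hρ1 (X.sc n)).1).2.2)
    (by have := hD (X.sc n); omega) (hρb _) (hιb _) (hζρ _)
  choose It h1 h2 h3 h4 h5 h6 h7 h8 using hpc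
  have hcard : ∀ n, (It n).card ≤ d ^ 3 := fun n => (h2 n).trans
    (num_card (card_pV hP hC0 n) (by have := hD (X.sc n); omega))
  have hP2 : PcD C g z θk θ' η a M S G d X := PcD.mono_rho hP hρ
  refine ⟨(univ : Finset (Fin N)).biUnion It, ?_, ?_, ?_, ?_⟩
  · intro A hA
    obtain ⟨n, -, hA⟩ := mem_biUnion.1 hA
    exact ⟨n, h1 n A hA⟩
  · intro A hA
    obtain ⟨n, -, hA⟩ := mem_biUnion.1 hA
    have h9 := card_le_card (h1 n A hA).1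
    have h10 := num_card (card_pV hP hC0 n) (show 2 * (Mn (ρ1 (X.sc n)) +
      Mb (ρ1 (X.sc n))) + 3 * ⌈C⌉₊ + 3 ≤ d by have := hD (X.sc n); omega)
    omega
  · intro v
    refine le_trans (card_le_card ?_) (hcard (X.P.pc v))
    intro A hA
    obtain ⟨hA, hv⟩ := mem_filter.1 hA
    obtain ⟨n, -, hA⟩ := mem_biUnion.1 hA
    have h9 := (mem_pV' v n).1 ((h1 n A hA).1 hv)
    rw [h9.2]
    exact hA
  · intro X' hX hL
    have hI : TsI S G d X ((univ : Finset (Fin N)).biUnion It) := by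
      have hm : ∀ n, ∀ A ∈ It n, A ∈ (univ : Finset (Fin N)).biUnion It :=
        fun n A hA => mem_biUnion.2 ⟨n, mem_univ _, hA⟩
      refine { gN := ?_, gB := ?_, nN := fun n hn v hv => hm n _ (h5 n hn v hv)
               nB := fun n hn v hv => hm n _ (h6 n hn v hv)
               wB := fun n hn w β => hm n _ (h7 n hn w β), kK := fun n hn => hm n _ (h8 n hn) }
      · intro n hn
        obtain ⟨k, c, h9, h10⟩ := h3 n hn
        exact ⟨k, c, h9, fun m => hm n _ (h10 m)⟩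
      · intro n hn
        obtain ⟨k, c, h9, h10⟩ := h4 n hn
        exact ⟨k, c, h9, fun m β => hm n _ (h10 m β)⟩
    rw [same_relab hX] at hL ⊢
    have hI' := hI.relab X'.P.sd X'.P.pt X'.P.th
    have hP' := MP_db9399_dx.PcD.relab hP2 X'.P.sd X'.P.pt X'.P.th
    have hL' := pcL hP' hL hI' hθk hη.le
      (fun s => small_pow (hS s).ρ.1 (by have := hD s; omega))
      (fun s => small_pow (half_pos (hS s).ε.1) (by have := hD s; omega))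
      (fun s => small_pow (div_pos (hS s).ζ.1 (by norm_num)) (by have := hD s; omega))
      (small_pow (div_pos hη (by norm_num)) (by omega)) hCm hζε (fun s => (hS s).ζ.1.le)
    exact { toPcD := hP', toPcL := hL' }

/-- **LPL.** -/
theorem stmt_LPL : Stmt_LPL.{u} :=
  stmt_LPL_of (MP_db9399_da.helper73.stmt_CPB
      (MP_db9399_da_helper73.stmt_PCUT MP_db9399_da_helper73.stmt_WR))
    (MP_db9399_da.helper73.stmt_CPN
      (MP_db9399_da_helper73.stmt_PCUT MP_db9399_da_helper73.stmt_WR)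
      MP_db9399_da.helper19.stmt_DCUT)

end Pool.Agent.Work.MP_db9399_lpl
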